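import Mathlib
import Pool.Agent.TH96.SL.E

/-!
# The constants `C_n(ε)` in the generalized abc conjecture grow superexponentially in `n`

For every real `E` and every exponent `M ≤ E n` (for instance `M = 2 n - 5 + ε`), a constant `C` with
`max |x_i| ≤ C * R(x_1 ⋯ x_n) ^ M` for all admissible `n`-tuples satisfies
`C ≥ n ^ ((1/2 - δ) n)` for all large `n` and `C ≥ n ^ ((1 - δ) n)` for infinitely many `n`.
-/

set_option autoImplicit false

namespace Pool.Agent.Results.MP_7bfa24_nt.ConstantsSuperexponential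

open Filter Pool.Agent.TH96

/-- `x` is admissible: the entries sum to `0`, their greatest common divisor is `1`, and no subsum
over a nonempty proper set of indices vanishes. -/
def Admissible {n : ℕ} (x : Fin n → ℤ) : Prop :=
  ∑ i, x i = 0 ∧ Finset.univ.gcd x = 1 ∧
    ∀ I : Finset (Fin n), I.Nonempty → I ≠ Finset.univ → ∑ i ∈ I, x i ≠ 0

/-- The radical of an integer: the product of the distinct primes dividing it. -/
def radical (m : ℤ) : ℕ := ∏ p ∈ m.natAbs.primeFactors, p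

/-- The constant `C` works for the exponent `M`: `max |x_i| ≤ C * R(x_1 ⋯ x_n) ^ M` for every
admissible `n`-tuple. -/
def Works (n : ℕ) (M C : ℝ) : Prop :=
  ∀ x : Fin n → ℤ, Admissible x → ∀ i, (|x i| : ℝ) ≤ C * (radical (∏ j, x j) : ℝ) ^ M

lemma one_le_radical (m : ℤ) : 1 ≤ radical m := by
  unfold radical
  apply Finset.one_le_prod'
  intro p hp
  exact (Nat.prime_of_mem_primeFactors hp).one_lt.le

/-- A lower bound for working constants from one tuple with radical at most `6`. -/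
lemma works_lower {n : ℕ} {M C E κ δ : ℝ} (hn : 1 < n) (hM : M ≤ E * n)
    (hlog : 2 * (|E| * Real.log 6) ≤ δ * Real.log n) (hC : Works n M C)
    (h : ∃ x : Fin n → ℤ, SL.Admissible x ∧ SL.rad x ≤ 6 ∧
      ∃ j, (n : ℝ) ^ ((κ - δ / 2) * n) ≤ (|x j| : ℝ)) :
    (n : ℝ) ^ ((κ - δ) * n) ≤ C := by
  obtain ⟨x, hx1, hx2, j, hj⟩ := h
  have hn1 : (1 : ℝ) < n := by exact_mod_cast hn
  have hn0 : (0 : ℝ) < n := by linarith
  have hadm : Admissible x := ⟨hx1.2.1, hx1.1, hx1.2.2⟩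
  have h1 := hC x hadm j
  set R : ℝ := (radical (∏ j, x j) : ℝ) with hR
  have hR1 : (1 : ℝ) ≤ R := by
    rw [hR]
    exact_mod_cast one_le_radical _
  have hR6 : R ≤ 6 := by
    have : radical (∏ j, x j) ≤ 6 := hx2
    rw [hR]
    exact_mod_cast this
  have hRM0 : 0 < R ^ M := Real.rpow_pos_of_pos (by linarith) _
  have hRM : R ^ M ≤ (6 : ℝ) ^ (|E| * n) := by
    have h2 : R ^ M ≤ R ^ (|E| * n) := by
      apply Real.rpow_le_rpow_of_exponent_le hR1
      refine hM.trans ?_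
      exact mul_le_mul_of_nonneg_right (le_abs_self _) hn0.le
    exact h2.trans (Real.rpow_le_rpow (by linarith) hR6 (by positivity))
  have hpos : 0 < (n : ℝ) ^ ((κ - δ / 2) * n) := Real.rpow_pos_of_pos hn0 _
  have hC0 : 0 < C := by
    by_contra hcon
    push Not at hcon
    have : C * R ^ M ≤ 0 := mul_nonpos_of_nonpos_of_nonneg hcon hRM0.le
    linarith
  have h3 : (n : ℝ) ^ ((κ - δ / 2) * n) ≤ C * (6 : ℝ) ^ (|E| * n) :=
    (hj.trans h1).trans (mul_le_mul_of_nonneg_left hRM hC0.le)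
  have h4 : (6 : ℝ) ^ (|E| * n) ≤ (n : ℝ) ^ (δ / 2 * n) := by
    rw [Real.rpow_def_of_pos (by norm_num : (0 : ℝ) < 6), Real.rpow_def_of_pos hn0]
    apply Real.exp_le_exp.2
    nlinarith
  have h5 : (n : ℝ) ^ ((κ - δ / 2) * n) = (n : ℝ) ^ ((κ - δ) * n) * (n : ℝ) ^ (δ / 2 * n) := by
    rw [← Real.rpow_add hn0]
    congr 1
    ring
  have h6 : 0 < (n : ℝ) ^ (δ / 2 * n) := Real.rpow_pos_of_pos hn0 _
  have h7 : (n : ℝ) ^ ((κ - δ) * n) * (n : ℝ) ^ (δ / 2 * n) ≤ C * (n : ℝ) ^ (δ / 2 * n) := by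
    rw [← h5]
    exact h3.trans (mul_le_mul_of_nonneg_left h4 hC0.le)
  exact le_of_mul_le_mul_right h7 h6

/-- Growth in `n` of the constants of the generalized abc conjecture. -/
theorem result (δ E : ℝ) (hδ : 0 < δ) :
    (∀ᶠ n : ℕ in atTop, ∀ M C : ℝ, M ≤ E * n → Works n M C → (n : ℝ) ^ ((1 / 2 - δ) * n) ≤ C) ∧
    (∃ᶠ n : ℕ in atTop, ∀ M C : ℝ, M ≤ E * n → Works n M C → (n : ℝ) ^ ((1 - δ) * n) ≤ C) := by
  have hlogn : Tendsto (fun n : ℕ => Real.log n) atTop atTop :=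
    Real.tendsto_log_atTop.comp tendsto_natCast_atTop_atTop
  have hev : ∀ᶠ n : ℕ in atTop, 1 < n ∧ 2 * (|E| * Real.log 6) ≤ δ * Real.log n := by
    filter_upwards [eventually_gt_atTop 1,
      hlogn.eventually_ge_atTop (2 * (|E| * Real.log 6) / δ)] with n h1 h2
    refine ⟨h1, ?_⟩
    have := (div_le_iff₀ hδ).1 h2
    linarith
  constructor
  · filter_upwards [hev, SL.partA (δ / 2) (by positivity)] with n hn hx M C hM hC
    exact works_lower hn.1 hM hn.2 hC hx
  · refine ((SL.partB' (δ / 2) (by positivity)).and_eventually hev).mono ?_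
    rintro n ⟨hx, hn⟩ M C hM hC
    exact works_lower hn.1 hM hn.2 hC hx

end Pool.Agent.Results.MP_7bfa24_nt.ConstantsSuperexponential
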