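import Pool.Agent.TH285.NC.Tuple
import Pool.Agent.TH871.L1.Const

/-!
# The `n`-conjecture: how far `max |x_i|` exceeds `R (x_1 ⋯ x_n) ^ (2 n - 5)`
-/

set_option autoImplicit false

namespace Pool.Agent.Results.MP_7bfa24_nt.ExcessOverTwoNMinusFive

/-- `x` is admissible: the entries sum to `0`, their greatest common divisor is `1`, and no subsum
over a nonempty proper set of indices vanishes. -/
def Admissible {n : ℕ} (x : Fin n → ℤ) : Prop :=
  ∑ i, x i = 0 ∧ Finset.univ.gcd x = 1 ∧
    ∀ I : Finset (Fin n), I.Nonempty → I ≠ Finset.univ → ∑ i ∈ I, x i ≠ 0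

/-- the radical of an integer: the product of the distinct primes dividing it -/
def radical (m : ℤ) : ℕ := ∏ p ∈ m.natAbs.primeFactors, p

/-- `max |x_i|` -/
def size {n : ℕ} (x : Fin n → ℤ) : ℕ := Finset.univ.sup fun i => (x i).natAbs

/-- For `n ≥ 3` and `K < 6.84 √(2n - 5)` there are admissible `n`-tuples with `M = max |x_i|` as
large as one likes and `M > R (x_1 ⋯ x_n) ^ (2n - 5) exp (K √(log M) / log log M)`. -/
theorem result (n : ℕ) (hn : 3 ≤ n) (K : ℝ) (hK : K < 6.84 * √(2 * n - 5)) (X : ℝ) :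
    ∃ x : Fin n → ℤ, Admissible x ∧ X < size x ∧
      (radical (∏ j, x j) : ℝ) ^ (2 * n - 5) *
        Real.exp (K * √(Real.log (size x)) / Real.log (Real.log (size x))) < size x := by
  obtain ⟨k, rfl⟩ : ∃ k, n = k + 3 := ⟨n - 3, by omega⟩
  have hN1 : 2 * (k + 3) - 5 = 2 * k + 1 := by omega
  rw [hN1]
  obtain ⟨E, hE0, hE⟩ := Pool.Agent.TH285.NC.tuple k
  set N : ℕ := 2 * k + 1 with hN
  have hNR : (2 * ((k + 3 : ℕ) : ℝ) - 5) = (N : ℝ) := by rw [hN]; push_cast; ring
  rw [hNR] at hK
  have hN1R : (1 : ℝ) ≤ N := by exact_mod_cast (by omega : 1 ≤ N)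
  have hN0R : (0 : ℝ) < N := by linarith
  have hsN : 0 < √(N : ℝ) := Real.sqrt_pos.mpr hN0R
  have hsN2 : √(N : ℝ) * √(N : ℝ) = N := Real.mul_self_sqrt hN0R.le
  set K' : ℝ := max K 0 with hK'
  have hK'0 : 0 ≤ K' := le_max_right _ _
  have hK'lt : K' < 6.84 * √(N : ℝ) := max_lt hK (by positivity)
  set δ : ℝ := 6.84 * N - K' * √(N : ℝ) with hδ
  have hδ0 : 0 < δ := by
    have h1 := mul_lt_mul_of_pos_right hK'lt hsN
    have h2 : 6.84 * √(N : ℝ) * √(N : ℝ) = 6.84 * N := by rw [mul_assoc, hsN2]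
    rw [hδ]
    linarith
  have hlogE : 0 ≤ Real.log E := Real.log_natCast_nonneg E
  set A : ℝ := N * Real.log E with hA
  have hA0 : 0 ≤ A := by positivity
  -- `l` large
  obtain ⟨l0, hl0⟩ : ∃ l0 : ℝ, ∀ l : ℝ, l0 ≤ l → A * Real.log l < δ * √l := by
    have h1 := (isLittleO_log_rpow_atTop (r := 1 / 2) (by norm_num)).bound
      (c := δ / (A + 1)) (by positivity)
    obtain ⟨l1, hl1⟩ := Filter.eventually_atTop.mp h1
    refine ⟨max l1 1, fun l hl => ?_⟩
    have h2 := hl1 l ((le_max_left _ _).trans hl)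
    have hl1' : 1 ≤ l := (le_max_right _ _).trans hl
    have hlpos : 0 < l := by linarith
    rw [← Real.sqrt_eq_rpow] at h2
    have hlog : 0 ≤ Real.log l := Real.log_nonneg hl1'
    rw [Real.norm_of_nonneg hlog, Real.norm_of_nonneg (Real.sqrt_nonneg l)] at h2
    have hsl : 0 < √l := Real.sqrt_pos.mpr hlpos
    calc A * Real.log l ≤ A * (δ / (A + 1) * √l) := mul_le_mul_of_nonneg_left h2 hA0
      _ = (A / (A + 1)) * (δ * √l) := by ring
      _ < 1 * (δ * √l) := by
          refine mul_lt_mul_of_pos_right ?_ (by positivity)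
          rw [div_lt_one (by positivity)]
          linarith
      _ = δ * √l := one_mul _
  obtain ⟨a, b, c, habc, hX, hgood⟩ := Pool.Agent.TH871.L1.good_triples (K := 171 / 25)
    (by norm_num) le_rfl (max l0 (max X (Real.exp 1)))
  obtain ⟨ha, hb, hc, hsum, hcop, -, -⟩ := habc
  set l : ℝ := Real.log c with hl
  have hl0' : l0 ≤ l := ((le_max_left _ _).trans hX.le)
  have hXl : X < l := lt_of_le_of_lt ((le_max_left _ _).trans (le_max_right _ _)) hX
  have hel : Real.exp 1 < l := lt_of_le_of_lt ((le_max_right _ _).trans (le_max_right _ _)) hX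
  have hlpos : 0 < l := (Real.exp_pos 1).trans hel
  have hlogl : 1 < Real.log l := by
    rw [Real.lt_log_iff_exp_lt hlpos]
    exact hel
  obtain ⟨x, hx1, hx2, hx3, hx4, hx5⟩ := hE a b c ha hb hsum hcop
  have hsize : size x = c ^ N := hx4
  have hcR : (0 : ℝ) < c := by exact_mod_cast hc
  have hsizeR : (size x : ℝ) = (c : ℝ) ^ N := by rw [hsize]; push_cast; rfl
  have hlogsize : Real.log (size x) = N * l := by rw [hsizeR, Real.log_pow]
  have hc1 : (1 : ℝ) ≤ c := by exact_mod_cast hc
  refine ⟨x, ⟨hx1, hx2, hx3⟩, ?_, ?_⟩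
  · rw [hsizeR]
    have h1 : l ≤ c := (Real.log_le_sub_one_of_pos hcR).trans (by linarith)
    have h2 : (c : ℝ) ≤ (c : ℝ) ^ N := le_self_pow₀ hc1 (by omega)
    linarith
  · -- the radical
    set R : ℕ := radical (∏ j, x j) with hR
    have hR0 : 0 < R := Finset.prod_pos fun p hp => (Nat.prime_of_mem_primeFactors hp).pos
    have hR0R : (0 : ℝ) < R := by exact_mod_cast hR0
    have hRle : R ≤ E * Pool.Agent.H390R2.rad (a * b * c) := hx5
    have hrad0 : 0 < Pool.Agent.H390R2.rad (a * b * c) :=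
      Finset.prod_pos fun p hp => (Nat.prime_of_mem_primeFactors hp).pos
    have hrad0R : (0 : ℝ) < Pool.Agent.H390R2.rad (a * b * c) := by exact_mod_cast hrad0
    have hE0R : (0 : ℝ) < E := by exact_mod_cast hE0
    have hlogR : Real.log R ≤ Real.log E + Real.log (Pool.Agent.H390R2.rad (a * b * c)) := by
      rw [← Real.log_mul hE0R.ne' hrad0R.ne']
      exact Real.log_le_log hR0R (by exact_mod_cast hRle)
    have hsl : 0 < √l := Real.sqrt_pos.mpr hlpos
    have hlogl0 : 0 < Real.log l := by linarith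
    rw [hlogsize]
    have hsqrt : √((N : ℝ) * l) = √(N : ℝ) * √l := Real.sqrt_mul hN0R.le l
    have hNl : l ≤ N * l := le_mul_of_one_le_left hlpos.le hN1R
    have hlogNl : Real.log l ≤ Real.log (N * l) := Real.log_le_log hlpos hNl
    have hterm : K * √((N : ℝ) * l) / Real.log (N * l) ≤ K' * √(N : ℝ) * √l / Real.log l := by
      rw [hsqrt]
      have h1 : K * (√(N : ℝ) * √l) / Real.log (N * l) ≤
          K' * (√(N : ℝ) * √l) / Real.log (N * l) := by
        have : 0 < Real.log (N * l) := by linarith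
        gcongr
        exact le_max_left _ _
      refine h1.trans ?_
      rw [mul_assoc K']
      gcongr
    have h1 : 171 / 25 * √l / Real.log l * Real.log l = 171 / 25 * √l := by
      field_simp
    have hmain : N * Real.log R + K * √((N : ℝ) * l) / Real.log (N * l) < N * l := by
      have h2 : N * Real.log R ≤ A + N * (l - 171 / 25 * √l / Real.log l) := by
        have h3 : Real.log R ≤ Real.log E + (l - 171 / 25 * √l / Real.log l) := by linarith
        calc N * Real.log R ≤ N * (Real.log E + (l - 171 / 25 * √l / Real.log l)) := by gcongr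
          _ = A + N * (l - 171 / 25 * √l / Real.log l) := by rw [hA]; ring
      have h4 : A < δ * √l / Real.log l := by
        rw [lt_div_iff₀ hlogl0]
        exact hl0 l hl0'
      have h5 : δ * √l / Real.log l = N * (171 / 25 * √l / Real.log l) -
          K' * √(N : ℝ) * √l / Real.log l := by
        rw [hδ]
        ring
      linarith
    rw [hsizeR]
    calc (R : ℝ) ^ N * Real.exp (K * √((N : ℝ) * l) / Real.log (N * l))
        = Real.exp (N * Real.log R + K * √((N : ℝ) * l) / Real.log (N * l)) := by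
          rw [Real.exp_add, Real.exp_nat_mul, Real.exp_log hR0R]
      _ < Real.exp (N * l) := Real.exp_lt_exp.mpr hmain
      _ = (c : ℝ) ^ N := by rw [Real.exp_nat_mul, hl, Real.exp_log hcR]

end Pool.Agent.Results.MP_7bfa24_nt.ExcessOverTwoNMinusFive
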